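import Pool.Agent.H77.SSA.Stmts

/-!
Module DECF: finite decisions.
-/

set_option linter.unusedVariables false

namespace SSA

open Filter

theorem put_st_mem (p : RC) (Ψ : Finset Pos) (τ : Pos → St) (g : Crd) (n k : ℕ)
    (h : (g, n, k) ∈ Ψ) : (p.put Ψ τ).st g n k = τ (g, n, k) := by
  classical
  simp only [RC.put]
  exact if_pos h

theorem put_st_not (p : RC) (Ψ : Finset Pos) (τ : Pos → St) (g : Crd) (n k : ℕ)
    (h : (g, n, k) ∉ Ψ) : (p.put Ψ τ).st g n k = p.st g n k := by
  classical
  simp only [RC.put]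
  exact if_neg h

theorem put_sim' (p : RC) (Ψ : Finset Pos) (τ : Pos → St) (hp : p.Lg)
    (hτ : ∀ t ∈ Ψ, (τ t).leg (nb t.2.2)) : (p.put Ψ τ).Sim p where
  ht := rfl
  x _ _ := rfl
  z _ _ := rfl
  Pi := rfl
  Z := rfl
  dl _ _ := rfl
  leg g hg n k := by
    by_cases h : (g, n, k) ∈ Ψ
    · rw [put_st_mem p Ψ τ g n k h]
      exact hτ _ h
    · rw [put_st_not p Ψ τ g n k h]
      exact hp g hg n k
  fin := by
    refine Ψ.finite_toSet.subset ?_
    rintro ⟨g, n, k⟩ ⟨_, hne⟩
    by_contra h
    exact hne (put_st_not p Ψ τ g n k h)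

/-- legal decided statuses form a finite set -/
theorem finite_dec (n : ℕ) : {s : St | s.leg n ∧ s.dec}.Finite := by
  refine (((Set.finite_Iio n).image St.hit).union (Set.finite_singleton (St.opn ∅))).subset ?_
  rintro (i | B) ⟨h1, h2⟩
  · exact Or.inl ⟨i, h1, rfl⟩
  · right
    have h3 : B = ∅ := h2
    rw [h3]
    rfl

theorem ssa_decf (hS : SIMStmt) : DECFStmt := by
  classical
  intro A D hD hDm p hp Ψ hΨ
  -- patterns
  let X := (t : {t // t ∈ Ψ}) → {s : St // s.leg (nb t.1.2.2) ∧ s.dec}
  have : ∀ t : {t // t ∈ Ψ}, Finite {s : St // s.leg (nb t.1.2.2) ∧ s.dec} :=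
    fun t => (finite_dec _).to_subtype
  have hfin : Finite X := inferInstance
  have := Fintype.ofFinite X
  let ex : X → Pos → St := fun τ t => if h : t ∈ Ψ then (τ ⟨t, h⟩).1 else .opn ∅
  have hex : ∀ (τ : X) t (h : t ∈ Ψ), ex τ t = (τ ⟨t, h⟩).1 := fun τ t h => dif_pos h
  have hdec : ∀ τ : X, DecOn Ψ (ex τ) := fun τ t h => by
    rw [hex τ t h]
    exact (τ ⟨t, h⟩).2
  have hplg : p.Lg := hp.lg
  have key : ∀ s : Finset X, ∃ (q : RC) (M : ℕ), VA A q ∧ LeF Ψ q p ∧ ∀ τ ∈ s,
      ∃ m ≤ M, D (q.put Ψ (ex τ)) m := by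
    intro s
    induction s using Finset.induction_on with
    | empty => exact ⟨p, 0, hp, LeF.refl _ _, fun τ h => absurd h (Finset.notMem_empty _)⟩
    | insert τ0 s hτ0 ih =>
      obtain ⟨q, M, hq, hqp, hqs⟩ := ih
      have hqΨ : PosIn Ψ q := hΨ.of_le hqp.1
      have hq0 : VA A (q.put Ψ (ex τ0)) :=
        hS A q _ hq (put_sim' q Ψ _ hq.lg fun t ht => (hdec τ0 t ht).1)
      obtain ⟨d, m0, hd, hdq, hDd⟩ := hD _ hq0
      -- restore the statuses of `p`
      let q' : RC := d.put Ψ (fun t => p.at t)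
      have hq' : VA A q' := hS A d _ hd (put_sim' d Ψ _ hd.lg fun t ht => by
        exact hplg t.1 (hΨ t ht) t.2.1 t.2.2)
      have hst1 : ∀ g n k, (g, n, k) ∈ Ψ → q'.st g n k = p.st g n k :=
        fun g n k h => put_st_mem d Ψ _ g n k h
      have hst2 : ∀ g n k, (g, n, k) ∉ Ψ → q'.st g n k = d.st g n k :=
        fun g n k h => put_st_not d Ψ _ g n k h
      have hle : q'.Le q := {
        ht := hdq.ht
        x := hdq.x
        z := hdq.z
        Pi := hdq.Pi
        av := hdq.av
        Z := hdq.Z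
        dl := hdq.dl
        st := fun g hg n k => by
          by_cases h : (g, n, k) ∈ Ψ
          · rw [hst1 g n k h]
            have := hqp.2 (g, n, k) h
            have h2 : q.st g n k = p.st g n k := this
            rw [h2]
            exact St.le_refl _
          · rw [hst2 g n k h]
            have := hdq.st g hg n k
            rw [put_st_not q Ψ _ g n k h] at this
            exact this }
      have hput : ∀ τ : X, VA A (q'.put Ψ (ex τ)) := fun τ =>
        hS A q' _ hq' (put_sim' q' Ψ _ hq'.lg fun t ht => (hdec τ t ht).1)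
      refine ⟨q', max M m0, hq', ⟨hle.trans hqp.1, fun t ht => hst1 t.1 t.2.1 t.2.2 ht⟩,
        fun τ hτ => ?_⟩
      rcases Finset.mem_insert.1 hτ with rfl | hτ
      · refine ⟨m0, le_max_right _ _, hDm d _ m0 hd (hput τ) ?_ hDd⟩
        exact {
          ht := le_rfl
          x := fun _ _ => rfl
          z := fun _ _ => rfl
          Pi := subset_rfl
          av := fun ξ h1 h2 => absurd h2 (not_lt.2 h1)
          Z := subset_rfl
          dl := fun _ _ => le_rfl
          st := fun g hg n k => by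
            by_cases h : (g, n, k) ∈ Ψ
            · rw [put_st_mem q' Ψ _ g n k h]
              have h1 := hdq.st g (hqΨ _ h) n k
              rw [put_st_mem q Ψ _ g n k h] at h1
              rw [St.eq_of_le_dec h1 (hdec τ _ h).2]
              exact St.le_refl _
            · rw [put_st_not q' Ψ _ g n k h, hst2 g n k h]
              exact St.le_refl _ }
      · obtain ⟨m, hm, hDm'⟩ := hqs τ hτ
        have hqτ : VA A (q.put Ψ (ex τ)) :=
          hS A q _ hq (put_sim' q Ψ _ hq.lg fun t ht => (hdec τ t ht).1)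
        refine ⟨m, hm.trans (le_max_left _ _), hDm _ _ m hqτ (hput τ) ?_ hDm'⟩
        exact {
          ht := hle.ht
          x := hle.x
          z := hle.z
          Pi := hle.Pi
          av := hle.av
          Z := hle.Z
          dl := hle.dl
          st := fun g hg n k => by
            by_cases h : (g, n, k) ∈ Ψ
            · rw [put_st_mem q' Ψ _ g n k h, put_st_mem q Ψ _ g n k h]
              exact St.le_refl _
            · rw [put_st_not q' Ψ _ g n k h, put_st_not q Ψ _ g n k h]
              exact hle.st g hg n k }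
  obtain ⟨q, M, hq, hqp, hqs⟩ := key Finset.univ
  refine ⟨q, M, hq, hqp, fun τ hτ => ?_⟩
  refine ⟨hS A q _ hq (put_sim' q Ψ _ hq.lg fun t ht => (hτ t ht).1), ?_⟩
  let τ' : X := fun t => ⟨τ t.1, hτ t.1 t.2⟩
  have e : q.put Ψ τ = q.put Ψ (ex τ') := by
    unfold RC.put
    congr 1
    funext g n k
    by_cases h : (g, n, k) ∈ Ψ
    · rw [if_pos h, if_pos h, hex τ' _ h]
    · rw [if_neg h, if_neg h]
  rw [e]
  exact hqs τ' (Finset.mem_univ _)

end SSA
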