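import Pool.Agent.H77.SSA.Stmts

/-!
Module XSEQ: almost disjoint functions avoiding countably many slaloms.
-/

set_option linter.unusedVariables false

namespace SSA

open Filter

theorem ssa_xseq : XSEQStmt := by
  classical
  intro I F Q hI hF hQ hcard
  obtain ⟨e, he⟩ := Set.countable_iff_exists_injOn.1 hI
  obtain ⟨Sq, hSq⟩ := (hQ.insert (fun _ => (∅ : Finset ℕ))).exists_eq_range ⟨_, Set.mem_insert _ _⟩
  obtain ⟨Fq, hFq⟩ := (hF.insert (fun _ => 0)).exists_eq_range ⟨_, Set.mem_insert _ _⟩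
  have hS1 : ∀ i k, (Sq i k).card ≤ k := by
    intro i k
    have h1 : Sq i ∈ insert (fun _ => (∅ : Finset ℕ)) Q := by
      rw [hSq]
      exact ⟨i, rfl⟩
    rcases h1 with h1 | h1
    · rw [h1]
      simp
    · exact hcard _ h1 k
  have hS2 : ∀ S ∈ Q, ∃ i, Sq i = S := by
    intro S hS
    have h1 : S ∈ Set.range Sq := by
      rw [← hSq]
      exact Set.mem_insert_of_mem _ hS
    exact h1
  have hF2 : ∀ f ∈ F, ∃ i, Fq i = f := by
    intro f hf
    have h1 : f ∈ Set.range Fq := by
      rw [← hFq]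
      exact Set.mem_insert_of_mem _ hf
    exact h1
  let bad : ℕ → Finset ℕ := fun k => (Finset.range k).biUnion (fun j => Sq j k) ∪
    (Finset.range k).image (fun j => Fq j k)
  let G : ℕ → Finset ℕ := fun k => Finset.range (nb k) \ bad k
  have hbad : ∀ k, (bad k).card ≤ k * k + k := by
    intro k
    refine (Finset.card_union_le _ _).trans (add_le_add ?_ ?_)
    · refine Finset.card_biUnion_le.trans ?_
      refine (Finset.sum_le_card_nsmul _ _ k fun j _ => hS1 j k).trans ?_
      simp
    · exact Finset.card_image_le.trans (by simp)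
  have hG : ∀ k, k + 1 ≤ (G k).card := by
    intro k
    have h1 : (Finset.range (nb k)).card - (bad k).card ≤ (G k).card := Finset.le_card_sdiff _ _
    have h2 := hbad k
    rw [Finset.card_range] at h1
    have h3 : nb k = k * k + 2 * k + 1 := by unfold nb; ring
    omega
  let x : Om → ℕ → ℕ := fun ξ k => (G k).orderEmbOfCardLe (hG k)
    ⟨min (e ξ) k, Nat.lt_succ_of_le (min_le_right _ _)⟩
  have hx : ∀ ξ k, x ξ k ∈ G k := fun ξ k => Finset.orderEmbOfCardLe_mem _ _ _
  refine ⟨x, fun ξ _ k => ?_, fun ξ _ S hS => ?_, fun ξ _ f hf => ?_, fun ξ hξ η hη hne => ?_⟩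
  · have := hx ξ k
    exact Finset.mem_range.1 (Finset.mem_sdiff.1 this).1
  · obtain ⟨i, rfl⟩ := hS2 S hS
    filter_upwards [eventually_gt_atTop i] with k hk h1
    have h2 := (Finset.mem_sdiff.1 (hx ξ k)).2
    exact h2 (Finset.mem_union_left _ (Finset.mem_biUnion.2 ⟨i, Finset.mem_range.2 hk, h1⟩))
  · obtain ⟨i, rfl⟩ := hF2 f hf
    filter_upwards [eventually_gt_atTop i] with k hk h1
    have h2 := (Finset.mem_sdiff.1 (hx ξ k)).2
    exact h2 (Finset.mem_union_right _ (Finset.mem_image.2 ⟨i, Finset.mem_range.2 hk, h1.symm⟩))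
  · filter_upwards [eventually_gt_atTop (max (e ξ) (e η))] with k hk h1
    have h2 := ((G k).orderEmbOfCardLe (hG k)).injective h1
    have h3 : min (e ξ) k = min (e η) k := congrArg Fin.val h2
    have h4 : e ξ < k := lt_of_le_of_lt (le_max_left _ _) hk
    have h5 : e η < k := lt_of_le_of_lt (le_max_right _ _) hk
    rw [min_eq_left h4.le, min_eq_left h5.le] at h3
    exact hne (he hξ hη h3)

end SSA
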