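import Pool.Agent.H77.SSA.Stmts

/-!
Module XX: raising the height.
-/

set_option linter.unusedVariables false

namespace SSA

open Filter

theorem ssa_xx (hX : XSEQStmt) (hE : EXTStmt) : XXStmt := by
  classical
  intro A p hp h hph zz
  obtain ⟨x, hx1, hx2, hx3, hx4⟩ := hX (Set.Ico p.ht h) (p.x '' Set.Iio p.ht) p.Pi
    ((Om.countable_Iio h).mono fun a ha => ha.2) ((Om.countable_Iio p.ht).image _) hp.1.cPi hp.1.sl
  let q : RC := { p with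
    ht := h
    x := fun ξ => if ξ < p.ht then p.x ξ else x ξ
    z := fun ξ => if ξ < p.ht then p.z ξ else zz ξ }
  have hq1 : ∀ ξ, ξ < p.ht → q.x ξ = p.x ξ := fun ξ hξ => if_pos hξ
  have hq2 : ∀ ξ, p.ht ≤ ξ → q.x ξ = x ξ := fun ξ hξ => if_neg (not_lt.2 hξ)
  have hle : q.Le p := {
    ht := hph
    x := hq1
    z := fun ξ hξ => if_pos hξ
    Pi := subset_rfl
    av := fun ξ h1 h2 S hS => by
      rw [hq2 ξ h1]
      exact hx2 ξ ⟨h1, h2⟩ S hS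
    Z := subset_rfl
    dl := fun _ _ => le_rfl
    st := fun _ _ _ _ => St.le_refl _ }
  have hvg : q.VG := {
    cPi := hp.1.cPi
    sl := hp.1.sl
    cZ := hp.1.cZ
    xb := fun ξ hξ k => by
      rcases lt_or_ge ξ p.ht with h1 | h1
      · rw [hq1 ξ h1]
        exact hp.1.xb ξ h1 k
      · rw [hq2 ξ h1]
        exact hx1 ξ ⟨h1, hξ⟩ k
    ed := fun ξ hξ η hη hne => by
      rcases lt_or_ge ξ p.ht with h1 | h1 <;> rcases lt_or_ge η p.ht with h2 | h2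
      · rw [hq1 ξ h1, hq1 η h2]
        exact hp.1.ed ξ h1 η h2 hne
      · rw [hq1 ξ h1, hq2 η h2]
        filter_upwards [hx3 η ⟨h2, hη⟩ (p.x ξ) ⟨ξ, h1, rfl⟩] with k hk
        exact hk.symm
      · rw [hq2 ξ h1, hq1 η h2]
        exact hx3 ξ ⟨h1, hξ⟩ (p.x η) ⟨η, h2, rfl⟩
      · rw [hq2 ξ h1, hq2 η h2]
        exact hx4 ξ ⟨h1, hξ⟩ η ⟨h2, hη⟩ hne }
  refine ⟨q, hE A p q hp hle hvg hp.2.1 fun g hg => Or.inl ⟨hg, rfl, fun _ _ => rfl⟩, hle, rfl,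
    fun ξ h1 _ => if_neg (not_lt.2 h1), rfl⟩

end SSA
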